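import Pool.Agent.Work.MP_db9399_bg.Base

/-! THEOREM BIG, block P0ALL: the rounds of the colours `e x`. -/

set_option autoImplicit false

namespace Pool.Agent.Work.MP_db9399_bg.helper54

open Finset Classical
open Pool.Agent.Work.MP_db9399_all (nb)
open Pool.Agent.Work.MP_db9399_dn (IsMat)

universe u

section defs
variable {V : Type u} [Fintype V] {l m r K K1 : ℕ} {w : ℕ}

/-- one of the two outer cells -/
def In2 (a : ZMod (2 * m + 1)) (h : Fin m) (b : ZMod (2 * m + 1)) : Prop :=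
  b = a + ((h : ℕ) + 1 : ℕ) ∨ b = a - ((h : ℕ) + 1 : ℕ)

/-- the graph of the round `x` before the removal of used edges -/
def F0 (G : SimpleGraph V) (UH : Finset V) (lab : V → Lbl l m r K K1)
    (Nd : Ix m w → SimpleGraph V) (x : Ix m w) : SimpleGraph V where
  Adj v v' := (Rg G UH lab).Adj v v' ∧
    (((lab v).1 ∈ c3 x.1 x.2.1 ∧ (lab v').1 ∈ c3 x.1 x.2.1) ∨
      (v ∈ Jk UH lab Nd x ∧ In2 x.1 x.2.1 (lab v').1) ∨
      (v' ∈ Jk UH lab Nd x ∧ In2 x.1 x.2.1 (lab v).1))
  symm := ⟨fun v v' h => ⟨h.1.symm, by tauto⟩⟩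
  loopless := ⟨fun v h => (Rg G UH lab).loopless.irrefl v h.1⟩

/-- the graph of the round `x` -/
def F1 (G : SimpleGraph V) (UH : Finset V) (lab : V → Lbl l m r K K1)
    (Nd M : Ix m w → SimpleGraph V) (x : Ix m w) : SimpleGraph V where
  Adj v v' := (F0 G UH lab Nd x).Adj v v' ∧ ∀ x', ¬ (M x').Adj v v'
  symm := ⟨fun v v' h => ⟨h.1.symm, fun x' h' => h.2 x' h'.symm⟩⟩
  loopless := ⟨fun v h => (F0 G UH lab Nd x).loopless.irrefl v h.1⟩

/-- the state after the rounds of `S` -/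
structure St {k : ℕ} (g : ℝ) (G : SimpleGraph V) (d : ℕ) (UH : Finset V) (c0 tu : V → Fin k)
    (lab : V → Lbl l m r K K1) (e : Ix m w → Fin k) (c : V → Fin k) (wv : V → Fin k → V)
    (Nd : Ix m w → SimpleGraph V) (S : Finset (Ix m w)) (M : Ix m w → SimpleGraph V)
    (O : Ix m w → Finset V) : Prop where
  bot : ∀ x, x ∉ S → M x = ⊥
  le : ∀ x v v', (M x).Adj v v' → (F0 G UH lab Nd x).Adj v v' ∧
    v ∈ Ub UH c0 tu lab e c wv Nd x
  mat : ∀ x, IsMat (M x)
  dis : ∀ x x', x ≠ x' → ∀ v v', (M x).Adj v v' → ¬ (M x').Adj v v'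
  cov : ∀ x ∈ S, ∀ v ∈ Ub UH c0 tu lab e c wv Nd x, v ∉ O x → (nb (M x) v).Nonempty
  OU : ∀ x, ∀ v ∈ O x, v ∉ UH ∧ (lab v).1 = x.1 ∧ inW (lab v)
  Od : ∀ x x', x ≠ x' → Disjoint (O x) (O x')
  spr : ∀ x, Spr g G d (2 * m + 1) (Vc lab x.1) (O x)

/-- used neighbours in the cell `a` -/
noncomputable def usd (lab : V → Lbl l m r K K1) (M : Ix m w → SimpleGraph V)
    (a : ZMod (2 * m + 1)) (v : V) : Finset V :=
  univ.filter (fun v' => (lab v').1 = a ∧ ∃ x', (M x').Adj v v')

theorem hdet {a b : ZMod (2 * m + 1)} {h h' : Fin m} (h1 : In2 a h b) (h2 : In2 a h' b) :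
    h = h' := by
  have hh := h.2
  have hh' := h'.2
  apply Fin.ext
  rcases h1 with h1 | h1 <;> rcases h2 with h2 | h2
  · have h3 : (((h : ℕ) + 1 : ℕ) : ZMod (2 * m + 1)) = (((h' : ℕ) + 1 : ℕ) : ZMod (2 * m + 1)) := by
      linear_combination h2 - h1
    have := natCast_inj (by omega) (by omega) h3
    omega
  · exfalso
    have h3 : (((h : ℕ) + 1 : ℕ) : ZMod (2 * m + 1)) =
        -(((h' : ℕ) + 1 : ℕ) : ZMod (2 * m + 1)) := by
      linear_combination h2 - h1
    exact natCast_eq_neg (by omega) (by omega) h3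
  · exfalso
    have h3 : (((h' : ℕ) + 1 : ℕ) : ZMod (2 * m + 1)) =
        -(((h : ℕ) + 1 : ℕ) : ZMod (2 * m + 1)) := by
      linear_combination h1 - h2
    exact natCast_eq_neg (by omega) (by omega) h3
  · have h3 : (((h : ℕ) + 1 : ℕ) : ZMod (2 * m + 1)) = (((h' : ℕ) + 1 : ℕ) : ZMod (2 * m + 1)) := by
      linear_combination h1 - h2
    have := natCast_inj (by omega) (by omega) h3
    omega

theorem In2_c3 {a b : ZMod (2 * m + 1)} {h : Fin m} (h1 : In2 a h b) : b ∈ c3 a h := by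
  rw [mem_c3]
  exact Or.inr h1

theorem In2_symm {a b : ZMod (2 * m + 1)} {h : Fin m} (h1 : In2 a h b) : In2 b h a := by
  rcases h1 with h1 | h1
  · right
    linear_combination -h1
  · left
    linear_combination -h1

theorem In2_ne {a b : ZMod (2 * m + 1)} {h : Fin m} (h1 : In2 a h b) : b ≠ a := by
  have hh := h.2
  rintro rfl
  rcases h1 with h1 | h1
  · have h2 : (((h : ℕ) + 1 : ℕ) : ZMod (2 * m + 1)) = ((0 : ℕ) : ZMod (2 * m + 1)) := by
      rw [Nat.cast_zero]
      linear_combination -h1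
    have := natCast_inj (by omega) (by omega) h2
    omega
  · have h2 : (((h : ℕ) + 1 : ℕ) : ZMod (2 * m + 1)) = ((0 : ℕ) : ZMod (2 * m + 1)) := by
      rw [Nat.cast_zero]
      linear_combination h1
    have := natCast_inj (by omega) (by omega) h2
    omega

/-- sets of indices with determined centre and distance -/
theorem card_ix (I : Finset (Ix m w)) (h : ∀ x ∈ I, ∀ y ∈ I, x.1 = y.1 ∧ x.2.1 = y.2.1) :
    I.card ≤ w := by
  have h1 : I.card ≤ (univ : Finset (Fin w)).card := by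
    apply Finset.card_le_card_of_injOn (fun x => x.2.2) (fun _ _ => mem_univ _)
    intro x hx y hy hxy
    obtain ⟨h2, h3⟩ := h x hx y hy
    exact Prod.ext h2 (Prod.ext h3 hxy)
  rwa [card_univ, Fintype.card_fin] at h1

theorem deg_bx_le {G : SimpleGraph V} {d : ℕ} {σ c1 : ℝ} {lab : V → Lbl l m r K K1}
    (hL : LabP G d σ c1 lab) (hd : ∀ v, (nb G v).card ≤ d) (v : V) (P : Finset (Lbl l m r K K1)) :
    ((nb G v ∩ cl lab P).card : ℝ) ≤ den P * d + σ * d := by
  have h1 := (abs_le.mp (hL.deg v P)).2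
  have h2 : den P * ((nb G v).card : ℝ) ≤ den P * d :=
    mul_le_mul_of_nonneg_left (by exact_mod_cast hd v) (den_nonneg P)
  linarith

theorem le_deg_bx {G : SimpleGraph V} {d : ℕ} {σ c1 ε : ℝ} {lab : V → Lbl l m r K K1}
    (hL : LabP G d σ c1 lab) (hd : ∀ v, (1 - ε) * d ≤ ((nb G v).card : ℝ)) (v : V)
    (P : Finset (Lbl l m r K K1)) :
    den P * ((1 - ε) * d) - σ * d ≤ ((nb G v ∩ cl lab P).card : ℝ) := by
  have h1 := (abs_le.mp (hL.deg v P)).1
  have h2 : den P * ((1 - ε) * d) ≤ den P * ((nb G v).card : ℝ) :=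
    mul_le_mul_of_nonneg_left (hd v) (den_nonneg P)
  linarith

/-- number of used edges from `v` to another cell -/
theorem card_usd {k : ℕ} {g : ℝ} {G : SimpleGraph V} {d : ℕ} {UH : Finset V} {c0 tu : V → Fin k}
    {lab : V → Lbl l m r K K1} {e : Ix m w → Fin k} {c : V → Fin k} {wv : V → Fin k → V}
    {Nd : Ix m w → SimpleGraph V} {S : Finset (Ix m w)} {M : Ix m w → SimpleGraph V}
    {O : Ix m w → Finset V} (hS : St g G d UH c0 tu lab e c wv Nd S M O) (hN : NDec G UH lab Nd)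
    {σ c1 : ℝ} (hL : LabP G d σ c1 lab) (hd : ∀ v, (nb G v).card ≤ d) (v : V)
    (a : ZMod (2 * m + 1)) :
    ((usd lab M a v).card : ℝ) ≤ 4 * w + d / ((2 * m + 1) * (K + 1)) + σ * d := by
  set I1 : Finset (Ix m w) := univ.filter (fun x => x.1 = (lab v).1 ∧ In2 x.1 x.2.1 a) with hI1
  set I2 : Finset (Ix m w) := univ.filter (fun x => x.1 = a ∧ In2 x.1 x.2.1 (lab v).1) with hI2
  set I3 : Finset (Ix m w) := univ.filter (fun x => (lab v).1 + a = 2 * x.1 ∧
    In2 x.1 x.2.1 a) with hI3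
  set I4 : Finset (Ix m w) := univ.filter (fun x => x.1 = (lab v).2.2.2.1 ∧
    In2 x.1 x.2.1 a) with hI4
  have c1' : I1.card ≤ w := card_ix I1 (by
    intro x hx y hy
    rw [hI1, mem_filter] at hx hy
    have h1 : x.1 = y.1 := hx.2.1.trans hy.2.1.symm
    refine ⟨h1, hdet hx.2.2 ?_⟩
    rw [h1]
    exact hy.2.2)
  have c2' : I2.card ≤ w := card_ix I2 (by
    intro x hx y hy
    rw [hI2, mem_filter] at hx hy
    have h1 : x.1 = y.1 := hx.2.1.trans hy.2.1.symm
    refine ⟨h1, hdet hx.2.2 ?_⟩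
    rw [h1]
    exact hy.2.2)
  have c3' : I3.card ≤ w := card_ix I3 (by
    intro x hx y hy
    rw [hI3, mem_filter] at hx hy
    have h1 : x.1 = y.1 := two_mul_inj (hx.2.1.symm.trans hy.2.1)
    refine ⟨h1, hdet hx.2.2 ?_⟩
    rw [h1]
    exact hy.2.2)
  have c4' : I4.card ≤ w := card_ix I4 (by
    intro x hx y hy
    rw [hI4, mem_filter] at hx hy
    have h1 : x.1 = y.1 := hx.2.1.trans hy.2.1.symm
    refine ⟨h1, hdet hx.2.2 ?_⟩
    rw [h1]
    exact hy.2.2)
  have hsub : usd lab M a v ⊆ ((I1 ∪ I2 ∪ I3 ∪ I4).biUnion (fun x => nb (M x) v)) ∪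
      (nb G v ∩ cl lab (bx {a} univ univ univ {0} univ)) := by
    intro v' hv'
    rw [usd, mem_filter] at hv'
    obtain ⟨-, ha, x, hx⟩ := hv'
    obtain ⟨⟨hR, hF⟩, -⟩ := hS.le x v v' hx
    have hne : (lab v).1 ≠ a := by
      rw [← ha]
      exact hR.2.2.2.1
    rw [mem_union, mem_biUnion]
    rcases hF with ⟨h1, h2⟩ | ⟨h1, h2⟩ | ⟨h1, h2⟩
    · left
      refine ⟨x, ?_, mem_nb.2 hx⟩
      rw [ha, mem_c3] at h2
      rw [mem_c3] at h1
      rw [mem_union, mem_union, mem_union, hI1, hI2, hI3, hI4, mem_filter, mem_filter, mem_filter,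
        mem_filter]
      rcases h1 with h1 | h1 | h1
      · rcases h2 with h2 | h2
        · exact absurd (h1.trans h2.symm) hne
        · exact Or.inl (Or.inl (Or.inl ⟨mem_univ _, h1.symm, h2⟩))
      · rcases h2 with h2 | h2 | h2
        · exact Or.inl (Or.inl (Or.inr ⟨mem_univ _, h2.symm, Or.inl h1⟩))
        · exact absurd (h1.trans h2.symm) hne
        · refine Or.inl (Or.inr ⟨mem_univ _, ?_, Or.inr h2⟩)
          rw [h1, h2]
          ring
      · rcases h2 with h2 | h2 | h2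
        · exact Or.inl (Or.inl (Or.inr ⟨mem_univ _, h2.symm, Or.inr h1⟩))
        · refine Or.inl (Or.inr ⟨mem_univ _, ?_, Or.inl h2⟩)
          rw [h1, h2]
          ring
        · exact absurd (h1.trans h2.symm) hne
    · left
      refine ⟨x, ?_, mem_nb.2 hx⟩
      rw [Jk, mem_filter] at h1
      obtain ⟨-, h3, h4, h5⟩ := h1
      rw [ha] at h2
      have h6 : (lab v).2.2.2.1 = x.1 ∧ (lab v).2.2.2.2.1 = 0 := by
        by_contra h7
        exact h5 (hN.cov x v h3 h4 h7)
      rw [mem_union, hI4, mem_filter]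
      exact Or.inr ⟨mem_univ _, h6.1.symm, h2⟩
    · right
      rw [Jk, mem_filter] at h1
      obtain ⟨-, h3, h4, h5⟩ := h1
      have h6 : (lab v').2.2.2.1 = x.1 ∧ (lab v').2.2.2.2.1 = 0 := by
        by_contra h7
        exact h5 (hN.cov x v' h3 h4 h7)
      rw [mem_inter, mem_nb, mem_cl, mem_bx]
      refine ⟨hR.1, ?_, mem_univ _, mem_univ _, mem_univ _, ?_, mem_univ _⟩
      · rw [mem_singleton]
        exact ha
      · rw [mem_singleton]
        exact h6.2
  have h1 := card_le_card hsub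
  have h2 := card_union_le ((I1 ∪ I2 ∪ I3 ∪ I4).biUnion (fun x => nb (M x) v))
    (nb G v ∩ cl lab (bx {a} univ univ univ {0} univ))
  have h3 : ((I1 ∪ I2 ∪ I3 ∪ I4).biUnion (fun x => nb (M x) v)).card ≤
      (I1 ∪ I2 ∪ I3 ∪ I4).card * 1 := card_biUnion_le_card_mul _ _ _ (fun x _ => hS.mat x v)
  have h4 := card_union_le (I1 ∪ I2 ∪ I3) I4
  have h5 := card_union_le (I1 ∪ I2) I3
  have h6 := card_union_le I1 I2
  have h7 : (usd lab M a v).card ≤ 4 * w +
      (nb G v ∩ cl lab (bx {a} univ univ univ {0} univ)).card := by omega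
  have h8 := deg_bx_le hL hd v (bx {a} univ univ univ {0} univ)
  have h9 : den (bx {a} univ univ univ {0} univ : Finset (Lbl l m r K K1)) =
      1 / ((2 * (m : ℝ) + 1) * (K + 1)) := by
    rw [den_bx, card_univ_zmod, card_univ_zmod, card_univ_fin, card_univ_fin,
      Finset.card_singleton, Finset.card_singleton]
    have e1 : (2 * (m : ℝ) + 1) ≠ 0 := by positivity
    have e2 : (2 * (l : ℝ) + 1) ≠ 0 := by positivity
    have e3 : ((r : ℝ) + 1) ≠ 0 := by positivity
    have e4 : ((K : ℝ) + 1) ≠ 0 := by positivity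
    have e5 : ((K1 : ℝ) + 1) ≠ 0 := by positivity
    push_cast
    field_simp
  rw [h9] at h8
  have h10 : ((usd lab M a v).card : ℝ) ≤ 4 * w +
      ((nb G v ∩ cl lab (bx {a} univ univ univ {0} univ)).card : ℝ) := by exact_mod_cast h7
  have h11 : 1 / ((2 * (m : ℝ) + 1) * (K + 1)) * d = d / ((2 * m + 1) * (K + 1)) := by ring
  rw [h11] at h8
  linarith

theorem mem_PNr {a : ZMod (2 * m + 1)} {h : Fin m} {b : Fin 3 × ZMod (2 * l + 1)}
    {t : Lbl l m r K K1} (ht : t ∈ PN (rP l r K K1 a h) (rR l) b) :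
    t.1 ∈ c3 a h ∧ t.1 ≠ c3f a h b.1 ∧ rs b.2 t.2.1 := by
  rw [mem_PN] at ht
  obtain ⟨b', ⟨h1, h2⟩, h3⟩ := ht
  rw [rP, mem_bx, mem_singleton, mem_singleton] at h3
  refine ⟨?_, ?_, ?_⟩
  · rw [h3.1]
    exact mem_image_of_mem _ (mem_univ _)
  · rw [h3.1]
    exact fun h4 => h1 (c3f_inj a h h4).symm
  · rw [h3.2.1]
    exact h2

theorem mem_PNr' {a : ZMod (2 * m + 1)} {h : Fin m} {b : Fin 3 × ZMod (2 * l + 1)}
    {t : Lbl l m r K K1} (h1 : t.1 ∈ c3 a h) (h2 : t.1 ≠ c3f a h b.1) (h3 : rs b.2 t.2.1) :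
    t ∈ PN (rP l r K K1 a h) (rR l) b := by
  rw [mem_PN]
  obtain ⟨i, -, hi⟩ := mem_image.1 h1
  refine ⟨(i, t.2.1), ⟨?_, h3⟩, ?_⟩
  · rintro rfl
    exact h2 hi.symm
  · rw [rP, mem_bx, mem_singleton, mem_singleton]
    exact ⟨hi.symm, rfl, mem_univ _, mem_univ _, mem_univ _, mem_univ _⟩

theorem mem_rP {a : ZMod (2 * m + 1)} {h : Fin m} {b : Fin 3 × ZMod (2 * l + 1)}
    {t : Lbl l m r K K1} : t ∈ rP l r K K1 a h b ↔ t.1 = c3f a h b.1 ∧ t.2.1 = b.2 := by
  rw [rP, mem_bx, mem_singleton, mem_singleton]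
  simp

theorem den_junk (a : ZMod (2 * m + 1)) :
    den (bx univ univ univ {a} {0} univ : Finset (Lbl l m r K K1)) =
      1 / ((2 * (m : ℝ) + 1) * (K + 1)) := by
  rw [den_bx, card_univ_zmod, card_univ_zmod, card_univ_fin, card_univ_fin,
    Finset.card_singleton, Finset.card_singleton]
  have e1 : (2 * (m : ℝ) + 1) ≠ 0 := by positivity
  have e2 : (2 * (l : ℝ) + 1) ≠ 0 := by positivity
  have e3 : ((r : ℝ) + 1) ≠ 0 := by positivity
  have e4 : ((K : ℝ) + 1) ≠ 0 := by positivity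
  have e5 : ((K1 : ℝ) + 1) ≠ 0 := by positivity
  push_cast
  field_simp

theorem den_sub (a : ZMod (2 * m + 1)) (s : Fin (r + 1)) :
    den (bx {a} univ {s} univ univ univ : Finset (Lbl l m r K K1)) =
      1 / ((2 * (m : ℝ) + 1) * (r + 1)) := by
  rw [den_bx, card_univ_zmod, card_univ_zmod, card_univ_fin, card_univ_fin,
    Finset.card_singleton, Finset.card_singleton]
  have e1 : (2 * (m : ℝ) + 1) ≠ 0 := by positivity
  have e2 : (2 * (l : ℝ) + 1) ≠ 0 := by positivity
  have e3 : ((r : ℝ) + 1) ≠ 0 := by positivity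
  have e4 : ((K : ℝ) + 1) ≠ 0 := by positivity
  have e5 : ((K1 : ℝ) + 1) ≠ 0 := by positivity
  push_cast
  field_simp

theorem den_two (a b : ZMod (2 * m + 1)) (x y : ZMod (2 * l + 1)) (hab : a ≠ b) (hxy : x ≠ y) :
    den (bx {a, b} {x, y} univ univ univ univ : Finset (Lbl l m r K K1)) =
      4 / ((2 * (m : ℝ) + 1) * (2 * l + 1)) := by
  rw [den_bx, card_univ_zmod, card_univ_fin, card_univ_fin, card_univ_fin,
    Finset.card_pair hab, Finset.card_pair hxy]
  have e1 : (2 * (m : ℝ) + 1) ≠ 0 := by positivity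
  have e2 : (2 * (l : ℝ) + 1) ≠ 0 := by positivity
  have e3 : ((r : ℝ) + 1) ≠ 0 := by positivity
  have e4 : ((K : ℝ) + 1) ≠ 0 := by positivity
  have e5 : ((K1 : ℝ) + 1) ≠ 0 := by positivity
  push_cast
  field_simp
  norm_num

theorem rs_iff {x y : ZMod (2 * l + 1)} : rs x y ↔ y = -x ∨ y = 1 - x := by
  unfold rs
  constructor
  · rintro (h | h)
    · left
      linear_combination h
    · right
      linear_combination h
  · rintro (h | h)
    · left
      rw [h]
      ring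
    · right
      rw [h]
      ring

theorem neg_ne (hl : 1 ≤ l) (x : ZMod (2 * l + 1)) : -x ≠ 1 - x := by
  intro h
  have h1 : ((0 : ℕ) : ZMod (2 * l + 1)) = ((1 : ℕ) : ZMod (2 * l + 1)) := by
    push_cast
    linear_combination h
  have := natCast_inj (by omega) (by omega) h1
  omega

theorem card_le_five {A B C D E F : Finset V} (h : A ⊆ B ∪ C ∪ D ∪ E ∪ F) :
    (A.card : ℝ) ≤ B.card + C.card + D.card + E.card + F.card := by
  have h1 := card_le_card h
  have h2 := card_union_le (B ∪ C ∪ D ∪ E) F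
  have h3 := card_union_le (B ∪ C ∪ D) E
  have h4 := card_union_le (B ∪ C) D
  have h5 := card_union_le B C
  have h6 : A.card ≤ B.card + C.card + D.card + E.card + F.card := by omega
  exact_mod_cast h6

/-- the situation of the round `x` -/
theorem renv {k : ℕ} {g : ℝ} {G : SimpleGraph V} {d : ℕ} {UH : Finset V} {c0 tu : V → Fin k}
    {lab : V → Lbl l m r K K1} {e : Ix m w → Fin k} {c : V → Fin k} {wv : V → Fin k → V}
    {Nd : Ix m w → SimpleGraph V} {S : Finset (Ix m w)} {M : Ix m w → SimpleGraph V}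
    {O : Ix m w → Finset V} (hS : St g G d UH c0 tu lab e c wv Nd S M O) (hN : NDec G UH lab Nd)
    {σ c1 ε0 : ℝ} (hL : LabP G d σ c1 lab) (hd : ∀ v, (nb G v).card ≤ d)
    (hlow : ∀ v, (1 - ε0) * d ≤ ((nb G v).card : ℝ)) {EH : SimpleGraph V}
    (hH : HPre G UH c0 EH tu) (he : Function.Injective e) {pal : Fin m × Fin w → Fin (r + 1)}
    (hV : VCol G UH c0 lab e pal c) {w1 : ℕ}
    {e1 : Fin (K1 + 1) × Fin (K1 + 1) × Fin w1 → Fin k} {δ2 : ℝ}
    (hU : UPar G d δ2 UH c0 tu lab e e1 c wv) (hl : 1 ≤ l) {δ x0 : ℝ}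
    (hq : δ * qr l m d = 4000 * x0) (hσ : σ * d ≤ x0) (h2 : 2 ≤ x0) (hδ2 : δ2 * d ≤ x0)
    (hw : (w : ℝ) ≤ 9 / 4 * x0) (hK : (d : ℝ) / ((2 * m + 1) * (K + 1)) ≤ x0)
    (hr : (d : ℝ) / ((2 * m + 1) * (r + 1)) ≤ x0) (hε : ε0 * qr l m d ≤ 400 * x0)
    (x : Ix m w) :
    REnv G (F1 G UH lab Nd M x) (qr l m d) δ lab (rP l r K K1 x.1 x.2.1) (rR l)
      (Ub UH c0 tu lab e c wv Nd x) (Jk UH lab Nd x) := by
  have hJc : ∀ v ∈ Jk UH lab Nd x, (lab v).1 ∉ c3 x.1 x.2.1 := by
    intro v hv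
    rw [Jk, mem_filter] at hv
    exact hv.2.2.1
  have hJU : ∀ v ∈ Jk UH lab Nd x, v ∉ UH := by
    intro v hv
    rw [Jk, mem_filter] at hv
    exact hv.2.1
  have hUU : ∀ v ∈ Ub UH c0 tu lab e c wv Nd x, v ∉ UH := by
    intro v hv
    rw [Ub, mem_filter] at hv
    rcases hv.2 with h | h
    · exact h.1
    · exact hJU v h
  have hUc : ∀ v ∈ Ub UH c0 tu lab e c wv Nd x, v ∉ Jk UH lab Nd x →
      (lab v).1 ∈ c3 x.1 x.2.1 := by
    intro v hv hJ
    rw [Ub, mem_filter] at hv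
    rcases hv.2 with h | h
    · exact h.2.1
    · exact absurd h hJ
  have hJsub : ∀ v, nb G v ∩ Jk UH lab Nd x ⊆
      nb G v ∩ cl lab (bx univ univ univ {x.1} {0} univ) := by
    intro v z hz
    rw [mem_inter] at hz
    obtain ⟨hz1, hz2⟩ := hz
    rw [Jk, mem_filter] at hz2
    obtain ⟨-, h3, h4, h5⟩ := hz2
    have h6 : (lab z).2.2.2.1 = x.1 ∧ (lab z).2.2.2.2.1 = 0 := by
      by_contra h7
      exact h5 (hN.cov x z h3 h4 h7)
    rw [mem_inter, mem_cl, mem_bx, mem_singleton, mem_singleton]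
    exact ⟨hz1, mem_univ _, mem_univ _, mem_univ _, h6.1, h6.2, mem_univ _⟩
  have husd : ∀ v a, ((usd lab M a v).card : ℝ) ≤ 11 * x0 := by
    intro v a
    have h3 := card_usd hS hN hL hd v a
    linarith
  have hcol : ∀ z, z ∉ UH → c z = e x → z ∈ cl lab (bx {x.1} univ {pal x.2} univ univ univ :
      Finset (Lbl l m r K K1)) := by
    intro z hz hc
    obtain ⟨y, hy1, hy2⟩ := hV.cP z hz
    have h3 : ((lab z).1, y) = x := he (hy1.symm.trans hc)
    rw [mem_cl, mem_bx, mem_singleton, mem_singleton]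
    refine ⟨?_, mem_univ _, ?_, mem_univ _, mem_univ _, mem_univ _⟩
    · rw [← h3]
    · rw [← h3]
      exact hy2.symm
  have hcolc : ∀ v, ((nb G v ∩ cl lab (bx {x.1} univ {pal x.2} univ univ univ :
      Finset (Lbl l m r K K1))).card : ℝ) ≤ 2 * x0 := by
    intro v
    have h3 := deg_bx_le hL hd v (bx {x.1} univ {pal x.2} univ univ univ)
    rw [den_sub] at h3
    have h4 : 1 / ((2 * (m : ℝ) + 1) * (r + 1)) * d = d / ((2 * m + 1) * (r + 1)) := by ring
    rw [h4] at h3
    linarith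
  have hUHc : ∀ v, ((nb G v ∩ UH).card : ℝ) ≤ x0 := by
    intro v
    have h3 : ((nb G v ∩ UH).card : ℝ) ≤ 2 := by exact_mod_cast hH.two v
    linarith
  have hUWc : ∀ v, ((nb G v ∩ UW UH c0 tu wv (e x)).card : ℝ) ≤ x0 := by
    intro v
    have h3 := hU.spr v (e x) (Or.inl ⟨x, rfl⟩)
    linarith
  have hc3 : ∀ a ∈ c3 x.1 x.2.1, a = x.1 ∨ In2 x.1 x.2.1 a := by
    intro a ha
    exact mem_c3.1 ha
  -- vertices of the three cells outside `U`
  have hnotU : ∀ z, (lab z).1 ∈ c3 x.1 x.2.1 → z ∉ Ub UH c0 tu lab e c wv Nd x → z ∈ UH ∨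
      z ∈ cl lab (bx {x.1} univ {pal x.2} univ univ univ : Finset (Lbl l m r K K1)) ∨
      z ∈ UW UH c0 tu wv (e x) := by
    intro z hz hzU
    by_cases h3 : z ∈ UH
    · exact Or.inl h3
    by_cases h4 : z ∈ UW UH c0 tu wv (e x)
    · exact Or.inr (Or.inr h4)
    right
    left
    apply hcol z h3
    by_contra h5
    apply hzU
    rw [Ub, mem_filter]
    exact ⟨mem_univ _, Or.inl ⟨h3, hz, h5, h4⟩⟩
  have hx0 : (0 : ℝ) ≤ x0 := by linarith
  refine ⟨?_, ?_, ?_, ?_, ?_, ?_, ?_, ?_, ?_, ?_⟩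
  · intro v v' h3
    exact h3.1.1.1
  · intro v hv
    rw [Ub, mem_filter]
    exact ⟨mem_univ _, Or.inr hv⟩
  · intro v hv hJ
    have h3 := hUc v hv hJ
    obtain ⟨i, -, hi⟩ := mem_image.1 h3
    exact ⟨(i, (lab v).2.1), mem_rP.2 ⟨hi.symm, rfl⟩⟩
  · intro v hv b hb
    apply hJc v hv
    rw [(mem_rP.1 hb).1]
    exact mem_image_of_mem _ (mem_univ _)
  · intro b v hv hb z hz hzJ hadj
    rw [mem_rP] at hb
    apply mem_PNr' (hUc z hz hzJ)
    · rw [← hb.1]
      exact hadj.1.1.2.2.2.1.symm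
    · rw [← hb.2]
      exact hadj.1.1.2.2.2.2
  · intro v hv z hz hadj
    rcases hadj.1.2 with ⟨h3, -⟩ | ⟨-, h3⟩ | ⟨-, h3⟩
    · exact hJc v hv h3
    · exact hJc z hz (In2_c3 h3)
    · exact hJc v hv (In2_c3 h3)
  · -- miss
    intro b v hv hb
    have hb' := mem_rP.1 hb
    have hvc : (lab v).1 ∈ c3 x.1 x.2.1 := by
      rw [hb'.1]
      exact mem_image_of_mem _ (mem_univ _)
    have hsub : (nb G v ∩ cl lab (PN (rP l r K K1 x.1 x.2.1) (rR l) b)) \
        (nb (F1 G UH lab Nd M x) v ∩ Ub UH c0 tu lab e c wv Nd x) ⊆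
        (nb G v ∩ UH) ∪ (nb G v ∩ cl lab (bx {x.1} univ {pal x.2} univ univ univ)) ∪
          (nb G v ∩ UW UH c0 tu wv (e x)) ∪
          ((univ.erase b.1).biUnion (fun i => usd lab M (c3f x.1 x.2.1 i) v)) ∪ ∅ := by
      intro z hz
      rw [mem_sdiff, mem_inter, mem_inter, mem_nb, mem_cl, mem_nb] at hz
      obtain ⟨⟨h3, h4⟩, h5⟩ := hz
      obtain ⟨h6, h7, h8⟩ := mem_PNr h4
      rw [mem_union, mem_union, mem_union, mem_union, mem_inter, mem_inter, mem_inter, mem_nb,
        mem_biUnion]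
      by_cases hzU : z ∈ Ub UH c0 tu lab e c wv Nd x
      · have hR : (Rg G UH lab).Adj v z := by
          refine ⟨h3, hUU v hv, hUU z hzU, ?_, ?_⟩
          · rw [hb'.1]
            exact h7.symm
          · rw [hb'.2]
            exact h8
        have h9 : ∃ x', (M x').Adj v z := by
          by_contra h10
          push Not at h10
          exact h5 ⟨⟨⟨hR, Or.inl ⟨hvc, h6⟩⟩, h10⟩, hzU⟩
        obtain ⟨i, -, hi⟩ := mem_image.1 h6
        left
        right
        refine ⟨i, ?_, ?_⟩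
        · rw [mem_erase]
          refine ⟨?_, mem_univ _⟩
          rintro rfl
          exact h7 hi.symm
        · rw [usd, mem_filter]
          exact ⟨mem_univ _, hi.symm, h9⟩
      · rcases hnotU z h6 hzU with h9 | h9 | h9
        · exact Or.inl (Or.inl (Or.inl (Or.inl ⟨h3, h9⟩)))
        · exact Or.inl (Or.inl (Or.inl (Or.inr ⟨h3, h9⟩)))
        · exact Or.inl (Or.inl (Or.inr ⟨h3, h9⟩))
    have h3 := card_le_five hsub
    have h4 : (((univ.erase b.1).biUnion (fun i => usd lab M (c3f x.1 x.2.1 i) v)).card : ℝ) ≤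
        22 * x0 := by
      have h5 : ((univ.erase b.1).biUnion (fun i => usd lab M (c3f x.1 x.2.1 i) v)).card ≤
          ∑ i ∈ univ.erase b.1, (usd lab M (c3f x.1 x.2.1 i) v).card := card_biUnion_le
      have h6 : (((univ.erase b.1).biUnion (fun i => usd lab M (c3f x.1 x.2.1 i) v)).card : ℝ) ≤
          ∑ i ∈ univ.erase b.1, ((usd lab M (c3f x.1 x.2.1 i) v).card : ℝ) := by
        exact_mod_cast h5
      have h7 : ∑ i ∈ univ.erase b.1, ((usd lab M (c3f x.1 x.2.1 i) v).card : ℝ) ≤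
          ∑ i ∈ (univ : Finset (Fin 3)).erase b.1, 11 * x0 :=
        Finset.sum_le_sum (fun i _ => husd v _)
      rw [Finset.sum_const, Finset.card_erase_of_mem (mem_univ _), card_univ,
        Fintype.card_fin, nsmul_eq_mul] at h7
      push_cast at h7
      linarith
    have h5 := hUHc v
    have h6 := hcolc v
    have h7 := hUWc v
    rw [card_empty, Nat.cast_zero] at h3
    rw [hq]
    linarith
  · -- out
    intro b v hb
    have hsub : (nb G v ∩ cl lab (PN (rP l r K K1 x.1 x.2.1) (rR l) b)) \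
        Ub UH c0 tu lab e c wv Nd x ⊆
        (nb G v ∩ UH) ∪ (nb G v ∩ cl lab (bx {x.1} univ {pal x.2} univ univ univ)) ∪
          (nb G v ∩ UW UH c0 tu wv (e x)) ∪ ∅ ∪ ∅ := by
      intro z hz
      rw [mem_sdiff, mem_inter, mem_nb, mem_cl] at hz
      obtain ⟨⟨h3, h4⟩, h5⟩ := hz
      obtain ⟨h6, h7, h8⟩ := mem_PNr h4
      rw [mem_union, mem_union, mem_union, mem_union, mem_inter, mem_inter, mem_inter, mem_nb]
      rcases hnotU z h6 h5 with h9 | h9 | h9
      · exact Or.inl (Or.inl (Or.inl (Or.inl ⟨h3, h9⟩)))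
      · exact Or.inl (Or.inl (Or.inl (Or.inr ⟨h3, h9⟩)))
      · exact Or.inl (Or.inl (Or.inr ⟨h3, h9⟩))
    have h3 := card_le_five hsub
    have h5 := hUHc v
    have h6 := hcolc v
    have h7 := hUWc v
    rw [card_empty, Nat.cast_zero] at h3
    rw [hq]
    linarith
  · -- junk
    intro v
    have h3 : ((nb G v ∩ Jk UH lab Nd x).card : ℝ) ≤
        ((nb G v ∩ cl lab (bx univ univ univ {x.1} {0} univ)).card : ℝ) := by
      exact_mod_cast card_le_card (hJsub v)
    have h4 := deg_bx_le hL hd v (bx univ univ univ {x.1} {0} univ)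
    rw [den_junk] at h4
    have h5 : 1 / ((2 * (m : ℝ) + 1) * (K + 1)) * d = d / ((2 * m + 1) * (K + 1)) := by ring
    rw [h5] at h4
    rw [hq]
    linarith
  · -- jdeg
    intro v hv
    set a1 : ZMod (2 * m + 1) := x.1 + ((x.2.1 : ℕ) + 1 : ℕ) with ha1
    set a2 : ZMod (2 * m + 1) := x.1 - ((x.2.1 : ℕ) + 1 : ℕ) with ha2
    set lv := (lab v).2.1 with hlv
    have hden := den_two (r := r) (K := K) (K1 := K1) a1 a2 (-lv) (1 - lv) (by
      have h3 := c3f_inj x.1 x.2.1
      intro h4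
      have h5 : c3f x.1 x.2.1 1 = c3f x.1 x.2.1 2 := h4
      have h6 := h3 h5
      exact absurd h6 (by decide)) (neg_ne hl lv)
    have h4 : 4 / ((2 * (m : ℝ) + 1) * (2 * l + 1)) * d = qr l m d := by
      unfold qr
      ring
    have hvJ := hJc v hv
    constructor
    · have hsub : (nb G v ∩ cl lab (bx {a1, a2} {-lv, 1 - lv} univ univ univ univ :
          Finset (Lbl l m r K K1))) \
          (nb (F1 G UH lab Nd M x) v ∩ Ub UH c0 tu lab e c wv Nd x) ⊆
          (nb G v ∩ UH) ∪ (nb G v ∩ cl lab (bx {x.1} univ {pal x.2} univ univ univ)) ∪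
            (nb G v ∩ UW UH c0 tu wv (e x)) ∪ usd lab M a1 v ∪ usd lab M a2 v := by
        intro z hz
        rw [mem_sdiff, mem_inter, mem_inter, mem_nb, mem_cl, mem_nb, mem_bx] at hz
        obtain ⟨⟨h3, h6, h7, -⟩, h5⟩ := hz
        rw [mem_insert, mem_singleton] at h6 h7
        have hz2 : In2 x.1 x.2.1 (lab z).1 := h6
        have h8 : rs lv (lab z).2.1 := rs_iff.2 h7
        rw [mem_union, mem_union, mem_union, mem_union, mem_inter, mem_inter, mem_inter, mem_nb]
        by_cases hzU : z ∈ Ub UH c0 tu lab e c wv Nd x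
        · have hR : (Rg G UH lab).Adj v z := by
            refine ⟨h3, hJU v hv, hUU z hzU, ?_, h8⟩
            intro h9
            exact hvJ (h9 ▸ In2_c3 hz2)
          have h9 : ∃ x', (M x').Adj v z := by
            by_contra h10
            push Not at h10
            exact h5 ⟨⟨⟨hR, Or.inr (Or.inl ⟨hv, hz2⟩)⟩, h10⟩, hzU⟩
          rcases h6 with h6 | h6
          · left
            right
            rw [usd, mem_filter]
            exact ⟨mem_univ _, h6, h9⟩
          · right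
            rw [usd, mem_filter]
            exact ⟨mem_univ _, h6, h9⟩
        · rcases hnotU z (In2_c3 hz2) hzU with h9 | h9 | h9
          · exact Or.inl (Or.inl (Or.inl (Or.inl ⟨h3, h9⟩)))
          · exact Or.inl (Or.inl (Or.inl (Or.inr ⟨h3, h9⟩)))
          · exact Or.inl (Or.inl (Or.inr ⟨h3, h9⟩))
      have h5 := card_le_five hsub
      have h6 := hUHc v
      have h7 := hcolc v
      have h8 := hUWc v
      have h9 := husd v a1
      have h10 := husd v a2
      have h11 := le_deg_bx hL hlow v (bx {a1, a2} {-lv, 1 - lv} univ univ univ univ)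
      rw [hden] at h11
      have h12 : (nb G v ∩ cl lab (bx {a1, a2} {-lv, 1 - lv} univ univ univ univ :
          Finset (Lbl l m r K K1))).card ≤ ((nb G v ∩ cl lab (bx {a1, a2} {-lv, 1 - lv} univ
          univ univ univ : Finset (Lbl l m r K K1))) \
          (nb (F1 G UH lab Nd M x) v ∩ Ub UH c0 tu lab e c wv Nd x)).card +
          (nb (F1 G UH lab Nd M x) v ∩ Ub UH c0 tu lab e c wv Nd x).card := by
        have h13 := card_le_card_sdiff_add_card
          (t := nb (F1 G UH lab Nd M x) v ∩ Ub UH c0 tu lab e c wv Nd x)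
          (s := nb G v ∩ cl lab (bx {a1, a2} {-lv, 1 - lv} univ univ univ univ :
            Finset (Lbl l m r K K1)))
        exact h13
      have h13 : ((nb G v ∩ cl lab (bx {a1, a2} {-lv, 1 - lv} univ univ univ univ :
          Finset (Lbl l m r K K1))).card : ℝ) ≤ (((nb G v ∩ cl lab (bx {a1, a2} {-lv, 1 - lv} univ
          univ univ univ : Finset (Lbl l m r K K1))) \
          (nb (F1 G UH lab Nd M x) v ∩ Ub UH c0 tu lab e c wv Nd x)).card : ℝ) +
          ((nb (F1 G UH lab Nd M x) v ∩ Ub UH c0 tu lab e c wv Nd x).card : ℝ) := by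
        exact_mod_cast h12
      have h14 : 4 / ((2 * (m : ℝ) + 1) * (2 * l + 1)) * ((1 - ε0) * d) =
          qr l m d - ε0 * qr l m d := by
        rw [← h4]
        ring
      rw [h14] at h11
      have h15 : (1 - δ) * qr l m d = qr l m d - 4000 * x0 := by
        rw [← hq]
        ring
      rw [h15]
      linarith
    · have hsub : nb (F1 G UH lab Nd M x) v ∩ Ub UH c0 tu lab e c wv Nd x ⊆
          nb G v ∩ cl lab (bx {a1, a2} {-lv, 1 - lv} univ univ univ univ :
            Finset (Lbl l m r K K1)) := by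
        intro z hz
        rw [mem_inter, mem_nb] at hz
        obtain ⟨⟨⟨hR, hF⟩, -⟩, -⟩ := hz
        have h5 : In2 x.1 x.2.1 (lab z).1 := by
          rcases hF with ⟨h3, -⟩ | ⟨-, h3⟩ | ⟨-, h3⟩
          · exact absurd h3 hvJ
          · exact h3
          · exact absurd (In2_c3 h3) hvJ
        rw [mem_inter, mem_nb, mem_cl, mem_bx, mem_insert, mem_singleton, mem_insert,
          mem_singleton]
        exact ⟨hR.1, h5, rs_iff.1 hR.2.2.2.2, mem_univ _, mem_univ _, mem_univ _, mem_univ _⟩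
      have h5 : ((nb (F1 G UH lab Nd M x) v ∩ Ub UH c0 tu lab e c wv Nd x).card : ℝ) ≤
          ((nb G v ∩ cl lab (bx {a1, a2} {-lv, 1 - lv} univ univ univ univ :
            Finset (Lbl l m r K K1))).card : ℝ) := by
        exact_mod_cast card_le_card hsub
      have h6 := deg_bx_le hL hd v (bx {a1, a2} {-lv, 1 - lv} univ univ univ univ)
      rw [hden, h4] at h6
      have h15 : (1 + δ) * qr l m d = qr l m d + 4000 * x0 := by
        rw [← hq]
        ring
      rw [h15]
      linarith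

theorem Spr_empty (g : ℝ) (G : SimpleGraph V) (d N : ℕ) (Vg : Finset V) :
    Spr g G d N Vg ∅ := by
  refine ⟨∅, ?_, ?_, ?_⟩
  · intro C hC
    exact absurd hC (notMem_empty _)
  · intro z hz
    exact absurd hz (notMem_empty _)
  · intro C hC
    exact absurd hC (notMem_empty _)

/-- one more round -/
theorem step {k : ℕ} {g : ℝ} {G : SimpleGraph V} {d : ℕ} {UH : Finset V} {c0 tu : V → Fin k}
    {lab : V → Lbl l m r K K1} {e : Ix m w → Fin k} {c : V → Fin k} {wv : V → Fin k → V}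
    {Nd : Ix m w → SimpleGraph V} {δ : ℝ} (hR1 : OneRound g δ G d lab)
    (hren : ∀ (S : Finset (Ix m w)) (M : Ix m w → SimpleGraph V) (O : Ix m w → Finset V),
      St g G d UH c0 tu lab e c wv Nd S M O → ∀ x,
      REnv G (F1 G UH lab Nd M x) (qr l m d) δ lab (rP l r K K1 x.1 x.2.1) (rR l)
        (Ub UH c0 tu lab e c wv Nd x) (Jk UH lab Nd x))
    (hmw : m * w * (2 * m + 1) ≤ d) (S : Finset (Ix m w)) :
    ∃ (M : Ix m w → SimpleGraph V) (O : Ix m w → Finset V),
      St g G d UH c0 tu lab e c wv Nd S M O := by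
  induction S using Finset.induction_on with
  | empty =>
    refine ⟨fun _ => ⊥, fun _ => ∅, ?_, ?_, ?_, ?_, ?_, ?_, ?_, ?_⟩
    · intro x _
      rfl
    · intro x v v' h
      exact absurd h (by simp)
    · intro x v
      simp [nb]
    · intro x x' _ v v' h
      exact absurd h (by simp)
    · intro x hx
      exact absurd hx (notMem_empty _)
    · intro x v hv
      exact absurd hv (notMem_empty _)
    · intro x x' _
      exact disjoint_empty_left _
    · intro x
      exact Spr_empty _ _ _ _ _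
  | insert x S hxS ih =>
    obtain ⟨M, O, hS⟩ := ih
    have hren' := hren S M O hS x
    set Oi : ℕ → Finset V := fun i =>
      if h : ∃ y : Fin m × Fin w, (finProdFinEquiv y : ℕ) = i then O (x.1, h.choose) else ∅
      with hOi
    have hOi2 : ∀ y : Fin m × Fin w, Oi (finProdFinEquiv y : ℕ) = O (x.1, y) := by
      intro y
      have h : ∃ y' : Fin m × Fin w, (finProdFinEquiv y' : ℕ) = (finProdFinEquiv y : ℕ) := ⟨y, rfl⟩
      simp only [hOi]
      rw [dif_pos h]
      have h2 := h.choose_spec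
      have h3 : h.choose = y := finProdFinEquiv.injective (Fin.ext h2)
      rw [h3]
    obtain ⟨M', O', hM1, hM2, hM3, hM4, hO1, hO2, hO3⟩ := hR1 (F1 G UH lab Nd M x) x.1 x.2.1
      (Ub UH c0 tu lab e c wv Nd x) (Jk UH lab Nd x) (m * w) Oi hren' hmw (by
        intro i _
        simp only [hOi]
        split_ifs with h
        · exact hS.spr (x.1, h.choose)
        · exact Spr_empty _ _ _ _ _)
    have hOx : ∀ v ∈ O', v ∉ UH := by
      intro v hv
      have h1 := hO1 hv
      rw [Ub, mem_filter] at h1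
      rcases h1.2 with h | h
      · exact h.1
      · rw [Jk, mem_filter] at h
        exact h.2.1
    have hOd : ∀ x', x' ≠ x → Disjoint (O x') O' := by
      intro x' hne
      rw [Finset.disjoint_left]
      intro v hv hv'
      have h1 := (hS.OU x' v hv).2.1
      have h2 := (hO2 v hv').1
      have h3 := (hO2 v hv').2.2 (finProdFinEquiv x'.2 : ℕ) (finProdFinEquiv x'.2).2
      rw [hOi2] at h3
      apply h3
      have h4 : ((x.1, x'.2) : Ix m w) = x' := by
        rw [← h2, h1]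
      rw [h4]
      exact hv
    refine ⟨Function.update M x M', Function.update O x O', ?_, ?_, ?_, ?_, ?_, ?_, ?_, ?_⟩
    · intro x' hx'
      rw [mem_insert, not_or] at hx'
      rw [Function.update_of_ne hx'.1]
      exact hS.bot x' hx'.2
    · intro x' v v' h
      by_cases hx : x' = x
      · subst hx
        rw [Function.update_self] at h
        exact ⟨(hM1 h).1, hM3 v v' h⟩
      · rw [Function.update_of_ne hx] at h
        exact hS.le x' v v' h
    · intro x'
      by_cases hx : x' = x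
      · subst hx
        rw [Function.update_self]
        exact hM2
      · rw [Function.update_of_ne hx]
        exact hS.mat x'
    · intro x1 x2 hne v v' h
      by_cases h1 : x1 = x
      · subst h1
        rw [Function.update_self] at h
        rw [Function.update_of_ne (fun h2 => hne h2.symm)]
        exact (hM1 h).2 x2
      · rw [Function.update_of_ne h1] at h
        by_cases h2 : x2 = x
        · subst h2
          rw [Function.update_self]
          intro h3
          exact (hM1 h3).2 x1 h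
        · rw [Function.update_of_ne h2]
          exact hS.dis x1 x2 hne v v' h
    · intro x' hx' v hv hvO
      by_cases hx : x' = x
      · subst hx
        rw [Function.update_self] at hvO ⊢
        exact hM4 v hv hvO
      · rw [Function.update_of_ne hx] at hvO ⊢
        rw [mem_insert] at hx'
        exact hS.cov x' (hx'.resolve_left hx) v hv hvO
    · intro x' v hv
      by_cases hx : x' = x
      · subst hx
        rw [Function.update_self] at hv
        exact ⟨hOx v hv, (hO2 v hv).1, (hO2 v hv).2.1⟩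
      · rw [Function.update_of_ne hx] at hv
        exact hS.OU x' v hv
    · intro x1 x2 hne
      by_cases h1 : x1 = x
      · subst h1
        rw [Function.update_self, Function.update_of_ne (fun h2 => hne h2.symm)]
        exact (hOd x2 (fun h2 => hne h2.symm)).symm
      · rw [Function.update_of_ne h1]
        by_cases h2 : x2 = x
        · subst h2
          rw [Function.update_self]
          exact hOd x1 h1
        · rw [Function.update_of_ne h2]
          exact hS.Od x1 x2 hne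
    · intro x'
      by_cases hx : x' = x
      · subst hx
        rw [Function.update_self]
        exact hO3
      · rw [Function.update_of_ne hx]
        exact hS.spr x'

end defs

theorem stmt_P0ALL : Stmt_P0ALL.{u} := by
  intro g δ l m r K K1 hg hδ hδ1 hl hm hN hr hK
  have hm0 : (0 : ℝ) < 2 * (m : ℝ) + 1 := by positivity
  have hl0 : (0 : ℝ) < 2 * (l : ℝ) + 1 := by positivity
  have hr0 : (0 : ℝ) < (r : ℝ) + 1 := by positivity
  have hK0 : (0 : ℝ) < (K : ℝ) + 1 := by positivity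
  have hs0 : 0 < δ / (1000 * ((2 * m + 1) * (2 * l + 1))) := by positivity
  refine ⟨δ / (1000 * ((2 * m + 1) * (2 * l + 1))), δ / 10,
    δ / (1000 * ((2 * m + 1) * (2 * l + 1))),
    ⌈2 / (δ / (1000 * ((2 * (m : ℝ) + 1) * (2 * l + 1))))⌉₊, hs0, by positivity, hs0, ?_⟩
  intro V _ G d k w w1 c1 UH c0 EH tu lab e e1 pal c wv Nd hd hB hL hR hH he hV hU hND hmw
  set s : ℝ := δ / (1000 * ((2 * m + 1) * (2 * l + 1))) with hs
  set x0 : ℝ := s * d with hx0
  have hd0 : (0 : ℝ) ≤ d := Nat.cast_nonneg _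
  have h2 : 2 ≤ x0 := by
    have h3 : 2 / s ≤ (d : ℝ) := (Nat.le_ceil _).trans (by exact_mod_cast hd)
    rw [div_le_iff₀ hs0] at h3
    linarith
  have hq : δ * qr l m d = 4000 * x0 := by
    rw [hx0, hs]
    unfold qr
    field_simp
    ring
  have hε : δ / 10 * qr l m d ≤ 400 * x0 := by
    have h3 : δ / 10 * qr l m d = (δ * qr l m d) / 10 := by ring
    rw [h3, hq]
    linarith
  have hfrac : ∀ X : ℝ, 0 < X → 1000 * (2 * (l : ℝ) + 1) ≤ δ * X →
      (d : ℝ) / ((2 * m + 1) * X) ≤ x0 := by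
    intro X hX hX2
    rw [hx0, hs, div_mul_eq_mul_div, div_le_div_iff₀ (by positivity) (by positivity)]
    have h3 : (2 * (m : ℝ) + 1) * (1000 * (2 * (l : ℝ) + 1)) * d ≤
        (2 * (m : ℝ) + 1) * (δ * X) * d :=
      mul_le_mul_of_nonneg_right (mul_le_mul_of_nonneg_left hX2 hm0.le) hd0
    calc (d : ℝ) * (1000 * ((2 * m + 1) * (2 * l + 1)))
        = (2 * (m : ℝ) + 1) * (1000 * (2 * (l : ℝ) + 1)) * d := by ring
      _ ≤ (2 * (m : ℝ) + 1) * (δ * X) * d := h3
      _ = δ * d * ((2 * m + 1) * X) := by ring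
  have hw : (w : ℝ) ≤ 9 / 4 * x0 := by
    have h3 := hfrac (2 * m + 1) hm0 hN
    have h4 : (d : ℝ) / ((2 * m + 1) * (2 * m + 1)) * ((2 * m + 1) * (2 * m + 1)) = d := by
      field_simp
    have hm4 : (4 : ℝ) ≤ m := by exact_mod_cast hm
    have hw0 : (0 : ℝ) ≤ w := Nat.cast_nonneg _
    have h5 : (4 : ℝ) / 9 * w ≤ (d : ℝ) / ((2 * m + 1) * (2 * m + 1)) := by
      rw [le_div_iff₀ (by positivity)]
      have h6 : 4 / 9 * (2 * (m : ℝ) + 1) ≤ m := by linarith
      have h7 : (2 * (m : ℝ) + 1) * (4 / 9 * (2 * (m : ℝ) + 1)) * w ≤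
          (2 * (m : ℝ) + 1) * m * w :=
        mul_le_mul_of_nonneg_right (mul_le_mul_of_nonneg_left h6 hm0.le) hw0
      calc 4 / 9 * (w : ℝ) * ((2 * m + 1) * (2 * m + 1))
          = (2 * (m : ℝ) + 1) * (4 / 9 * (2 * (m : ℝ) + 1)) * w := by ring
        _ ≤ (2 * (m : ℝ) + 1) * m * w := h7
        _ ≤ d := hmw
    linarith
  have hmw' : m * w * (2 * m + 1) ≤ d := by
    have h3 : ((m * w * (2 * m + 1) : ℕ) : ℝ) ≤ (d : ℝ) := by
      push_cast
      calc (m : ℝ) * w * (2 * m + 1) = (2 * (m : ℝ) + 1) * m * w := by ring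
        _ ≤ d := hmw
    exact_mod_cast h3
  obtain ⟨M, O, hS⟩ := step hR (fun S M O hS x => renv hS hND hL hB.deg hB.low hH he hV hU hl hq
    (le_refl _) h2 (le_refl _) hw (hfrac _ hK0 hK) (hfrac _ hr0 hr) hε x) hmw'
    (univ : Finset (Ix m w))
  exact ⟨M, O, fun x v v' h => ⟨(hS.le x v v' h).1.1, (hS.le x v v' h).2⟩, hS.mat, hS.dis,
    fun x v hv hvO => hS.cov x (mem_univ _) v hv hvO, hS.OU, hS.Od, hS.spr⟩

end Pool.Agent.Work.MP_db9399_bg.helper54
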