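import Pool.Agent.Work.MP_db9399_bg_helper54.P0ALL

/-! THEOREM BIG, block NDEC: the near-decomposition (from FAC). -/

set_option autoImplicit false

namespace Pool.Agent.Work.MP_db9399_bg.helper54

open Finset Classical
open Pool.Agent.Work.MP_db9399_all (nb)
open Pool.Agent.Work.MP_db9399_dn (IsMat)

universe u

section
variable {V : Type u} [Fintype V] {l m r K K1 : ℕ} {w : ℕ}

/-- the nonreserve edges -/
def Gn (G : SimpleGraph V) (lab : V → Lbl l m r K K1) : SimpleGraph V where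
  Adj v v' := G.Adj v v' ∧ ¬ rs (lab v).2.1 (lab v').2.1
  symm := ⟨fun v v' h => ⟨h.1.symm, fun h' => h.2 (rs_symm h')⟩⟩
  loopless := ⟨fun v h => G.loopless.irrefl v h.1⟩

/-- position of `h` in `Fin m` minus `y` -/
def posn {m : ℕ} (h y : Fin m) : ℕ := if (h : ℕ) < y then h else (h : ℕ) - 1

theorem posn_lt {h y : Fin m} (hy : y ≠ h) : posn h y < m - 1 := by
  have h1 := h.2
  have h2 := y.2
  have h3 : (y : ℕ) ≠ h := fun h4 => hy (Fin.ext h4)
  unfold posn
  split_ifs with h4 <;> omega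

theorem posn_inj {h h' y : Fin m} (hy : y ≠ h) (hy' : y ≠ h') (he : posn h y = posn h' y) :
    h = h' := by
  have h3 : (y : ℕ) ≠ h := fun h4 => hy (Fin.ext h4)
  have h3' : (y : ℕ) ≠ h' := fun h4 => hy' (Fin.ext h4)
  apply Fin.ext
  unfold posn at he
  split_ifs at he with h4 h5 h5 <;> omega

theorem exists_In2 {a b : ZMod (2 * m + 1)} (hab : b ≠ a) : ∃ y : Fin m, In2 a y b := by
  set t : ZMod (2 * m + 1) := b - a with ht
  have ht0 : t ≠ 0 := sub_ne_zero.2 hab
  have hv0 : t.val ≠ 0 := fun h => ht0 ((ZMod.val_eq_zero t).1 h)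
  have hvl : t.val < 2 * m + 1 := ZMod.val_lt t
  have hvt : ((t.val : ℕ) : ZMod (2 * m + 1)) = t := ZMod.natCast_zmod_val t
  by_cases hle : t.val ≤ m
  · refine ⟨⟨t.val - 1, by omega⟩, Or.inl ?_⟩
    have h1 : (t.val - 1 + 1 : ℕ) = t.val := by omega
    simp only [h1, hvt]
    rw [ht]
    ring
  · refine ⟨⟨2 * m - t.val, by omega⟩, Or.inr ?_⟩
    have h1 : (2 * m - t.val + 1 : ℕ) = 2 * m + 1 - t.val := by omega
    simp only [h1]
    rw [Nat.cast_sub hvl.le, ZMod.natCast_self, hvt, ht]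
    ring

/-- the two sides of the pair (a, y) -/
noncomputable def As (UH : Finset V) (lab : V → Lbl l m r K K1) (b : ZMod (2 * m + 1)) :
    Finset V := Vc lab b \ UH

theorem mem_As {UH : Finset V} {lab : V → Lbl l m r K K1} {b : ZMod (2 * m + 1)} {v : V} :
    v ∈ As UH lab b ↔ (lab v).1 = b ∧ v ∉ UH := by
  rw [As, mem_sdiff, mem_Vc]

/-- from the matchings of the pairs to the near-decomposition -/
theorem combine {G : SimpleGraph V} {UH : Finset V} {lab : V → Lbl l m r K K1}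
    (MM : ZMod (2 * m + 1) → Fin m → Fin ((m - 1) * w) → SimpleGraph V)
    (h1 : ∀ a y i, MM a y i ≤ Gn G lab ∧ IsMat (MM a y i))
    (h2 : ∀ a y i v v', (MM a y i).Adj v v' →
      (v ∈ As UH lab (a + ((y : ℕ) + 1 : ℕ)) ∧ v' ∈ As UH lab (a - ((y : ℕ) + 1 : ℕ))) ∨
      (v ∈ As UH lab (a - ((y : ℕ) + 1 : ℕ)) ∧ v' ∈ As UH lab (a + ((y : ℕ) + 1 : ℕ))))
    (h3 : ∀ a y i j, i ≠ j → ∀ v v', (MM a y i).Adj v v' → ¬ (MM a y j).Adj v v')
    (h4 : ∀ a (y : Fin m) i, ∀ v ∈ As UH lab (a + ((y : ℕ) + 1 : ℕ)) ∪ As UH lab (a - ((y : ℕ) + 1 : ℕ)),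
      v ∉ univ.filter (fun v => (lab v).2.2.2.1 = a ∧ (lab v).2.2.2.2.1 = 0) →
      (nb (MM a y i) v).Nonempty) :
    ∃ Nd : Ix m w → SimpleGraph V, NDec G UH lab Nd := by
  have hidx : ∀ (x : Ix m w) (y : Fin m), y ≠ x.2.1 →
      posn x.2.1 y * w + (x.2.2 : ℕ) < (m - 1) * w := by
    intro x y hy
    have h5 := posn_lt hy
    have h6 := x.2.2.2
    have h7 : (posn x.2.1 y + 1) * w ≤ (m - 1) * w := Nat.mul_le_mul_right w (by omega)
    rw [add_mul, one_mul] at h7
    omega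
  set Nd : Ix m w → SimpleGraph V := fun x =>
    { Adj := fun v v' => ∃ (y : Fin m) (hy : y ≠ x.2.1),
        (MM x.1 y ⟨posn x.2.1 y * w + (x.2.2 : ℕ), hidx x y hy⟩).Adj v v'
      symm := ⟨fun v v' ⟨y, hy, h⟩ => ⟨y, hy, h.symm⟩⟩
      loopless := ⟨fun v ⟨y, hy, h⟩ => (MM x.1 y _).loopless.irrefl v h⟩ } with hNd
  have hAdj : ∀ x v v', (Nd x).Adj v v' ↔ ∃ (y : Fin m) (hy : y ≠ x.2.1),
      (MM x.1 y ⟨posn x.2.1 y * w + (x.2.2 : ℕ), hidx x y hy⟩).Adj v v' := by
    intro x v v'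
    rfl
  -- the cell of an end determines `y`
  have hIn : ∀ a y i v v', (MM a y i).Adj v v' → In2 a y (lab v).1 := by
    intro a y i v v' h
    rcases h2 a y i v v' h with ⟨h5, -⟩ | ⟨h5, -⟩
    · exact Or.inl (mem_As.1 h5).1
    · exact Or.inr (mem_As.1 h5).1
  have hsum : ∀ a y i v v', (MM a y i).Adj v v' → (lab v).1 + (lab v').1 = 2 * a := by
    intro a y i v v' h
    rcases h2 a y i v v' h with ⟨h5, h6⟩ | ⟨h5, h6⟩
    · rw [(mem_As.1 h5).1, (mem_As.1 h6).1]
      ring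
    · rw [(mem_As.1 h5).1, (mem_As.1 h6).1]
      ring
  refine ⟨Nd, ?_, ?_, ?_, ?_, ?_⟩
  · intro x v v' h
    obtain ⟨y, hy, h⟩ := (hAdj x v v').1 h
    exact ((h1 _ _ _).1 h).1
  · intro x v
    rw [Finset.card_le_one]
    intro z1 hz1 z2 hz2
    rw [mem_nb, hAdj] at hz1 hz2
    obtain ⟨y1, hy1, hz1⟩ := hz1
    obtain ⟨y2, hy2, hz2⟩ := hz2
    have h5 : y1 = y2 := hdet (hIn _ _ _ _ _ hz1) (hIn _ _ _ _ _ hz2)
    subst h5
    have h6 := (h1 x.1 y1 ⟨posn x.2.1 y1 * w + (x.2.2 : ℕ), hidx x y1 hy1⟩).2 v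
    rw [Finset.card_le_one] at h6
    exact h6 z1 (mem_nb.2 hz1) z2 (mem_nb.2 hz2)
  · intro x v v' h
    obtain ⟨y, hy, h⟩ := (hAdj x v v').1 h
    have h5 := hIn _ _ _ _ _ h
    refine ⟨?_, ?_, hsum _ _ _ _ _ h, ?_⟩
    · rcases h2 _ _ _ v v' h with ⟨h6, -⟩ | ⟨h6, -⟩
      · exact (mem_As.1 h6).2
      · exact (mem_As.1 h6).2
    · intro h6
      rcases mem_c3.1 h6 with h7 | h7
      · exact In2_ne h5 h7
      · exact hy (hdet h5 h7)
    · exact ((h1 _ _ _).1 h).2
  · intro x x' hne v v' h h'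
    obtain ⟨y, hy, h⟩ := (hAdj x v v').1 h
    obtain ⟨y', hy', h'⟩ := (hAdj x' v v').1 h'
    obtain ⟨a, hh, s⟩ := x
    obtain ⟨a', hh', s'⟩ := x'
    simp only at h h' hy hy'
    have h5 : a = a' := two_mul_inj ((hsum _ _ _ _ _ h).symm.trans (hsum _ _ _ _ _ h'))
    subst h5
    have h6 : y = y' := hdet (hIn _ _ _ _ _ h) (hIn _ _ _ _ _ h')
    subst h6
    refine h3 a y _ _ ?_ v v' h h'
    intro h7
    rw [Fin.mk.injEq] at h7
    have hs := s.2
    have hs' := s'.2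
    have h8 : posn hh y = posn hh' y ∧ (s : ℕ) = s' := by
      have hw : 0 < w := by omega
      have e1 : (posn hh y * w + (s : ℕ)) / w = posn hh y := by
        rw [mul_comm, Nat.mul_add_div hw, Nat.div_eq_of_lt hs, add_zero]
      have e2 : (posn hh' y * w + (s' : ℕ)) / w = posn hh' y := by
        rw [mul_comm, Nat.mul_add_div hw, Nat.div_eq_of_lt hs', add_zero]
      have e3 : posn hh y = posn hh' y := by
        rw [← e1, ← e2, h7]
      refine ⟨e3, ?_⟩
      rw [e3] at h7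
      omega
    have h9 : hh = hh' := posn_inj hy hy' h8.1
    have h10 : s = s' := Fin.ext h8.2
    rw [h9, h10] at hne
    exact hne rfl
  · intro x v hv hc hJ
    have h5 : (lab v).1 ≠ x.1 := by
      intro h6
      exact hc (mem_c3.2 (Or.inl h6))
    obtain ⟨y, hy⟩ := exists_In2 h5
    have hyx : y ≠ x.2.1 := by
      rintro rfl
      exact hc (In2_c3 hy)
    have h6 := h4 x.1 y ⟨posn x.2.1 y * w + (x.2.2 : ℕ), hidx x y hyx⟩ v (by
      rw [mem_union, mem_As, mem_As]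
      rcases hy with hy | hy
      · exact Or.inl ⟨hy, hv⟩
      · exact Or.inr ⟨hy, hv⟩) (by
      rw [mem_filter]
      exact fun h7 => hJ h7.2)
    obtain ⟨z, hz⟩ := h6
    rw [mem_nb] at hz
    exact ⟨z, mem_nb.2 ((hAdj x v z).2 ⟨y, hyx, hz⟩)⟩

theorem card_compl_pair {x y : ZMod (2 * l + 1)} (hxy : x ≠ y) :
    ((univ \ {x, y} : Finset (ZMod (2 * l + 1))).card : ℝ) = 2 * (l : ℝ) + 1 - 2 := by
  have h1 : (({x, y} : Finset (ZMod (2 * l + 1)))).card = 2 := Finset.card_pair hxy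
  have h2 : (univ \ {x, y} : Finset (ZMod (2 * l + 1))).card +
      (({x, y} : Finset (ZMod (2 * l + 1)))).card = (univ : Finset (ZMod (2 * l + 1))).card :=
    Finset.card_sdiff_add_card_eq_card (subset_univ _)
  have h3 : ((univ \ {x, y} : Finset (ZMod (2 * l + 1))).card : ℝ) + 2 = 2 * (l : ℝ) + 1 := by
    rw [← card_univ_zmod, ← h2, h1]
    push_cast
    ring
  linarith

/-- neighbours through nonreserve edges -/
theorem nb_Gn {G : SimpleGraph V} {UH : Finset V} {lab : V → Lbl l m r K K1} (v : V)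
    (b : ZMod (2 * m + 1)) :
    nb (Gn G lab) v ∩ As UH lab b = (nb G v ∩ cl lab (bx {b}
      (univ \ {-(lab v).2.1, 1 - (lab v).2.1}) univ univ univ univ)) \ UH := by
  ext z
  rw [mem_inter, mem_nb, mem_As, mem_sdiff, mem_inter, mem_nb, mem_cl, mem_bx, mem_singleton,
    mem_sdiff, mem_insert, mem_singleton]
  constructor
  · rintro ⟨⟨h1, h2⟩, h3, h4⟩
    refine ⟨⟨h1, h3, ⟨mem_univ _, ?_⟩, mem_univ _, mem_univ _, mem_univ _, mem_univ _⟩, h4⟩
    intro h5
    exact h2 (rs_iff.2 h5)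
  · rintro ⟨⟨h1, h3, ⟨-, h5⟩, -⟩, h4⟩
    exact ⟨⟨h1, fun h6 => h5 (rs_iff.1 h6)⟩, h3, h4⟩

theorem nb_Gn2 {G : SimpleGraph V} {UH : Finset V} {lab : V → Lbl l m r K K1} (v : V)
    (a b : ZMod (2 * m + 1)) :
    (nb G v ∩ cl lab (bx {b} (univ \ {-(lab v).2.1, 1 - (lab v).2.1}) univ {a} {0} univ)) \ UH ⊆
      nb (Gn G lab) v ∩ As UH lab b ∩
        univ.filter (fun v => (lab v).2.2.2.1 = a ∧ (lab v).2.2.2.2.1 = 0) := by
  intro z hz
  rw [mem_sdiff, mem_inter, mem_nb, mem_cl, mem_bx, mem_singleton, mem_sdiff, mem_insert,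
    mem_singleton, mem_singleton, mem_singleton] at hz
  obtain ⟨⟨h1, h2, ⟨-, h3⟩, -, h4, h5, -⟩, h6⟩ := hz
  rw [mem_inter, mem_inter, mem_nb, mem_As, mem_filter]
  exact ⟨⟨⟨h1, fun h7 => h3 (rs_iff.1 h7)⟩, h2, h6⟩, mem_univ _, h4, h5⟩

theorem den_n1 (hl : 1 ≤ l) (b : ZMod (2 * m + 1)) (x : ZMod (2 * l + 1)) :
    den (bx {b} (univ \ {-x, 1 - x}) univ univ univ univ : Finset (Lbl l m r K K1)) =
      (1 - 2 / (2 * (l : ℝ) + 1)) / (2 * m + 1) := by
  rw [den_bx, card_univ_zmod, card_univ_fin, card_univ_fin, card_univ_fin,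
    Finset.card_singleton, card_compl_pair (neg_ne hl x)]
  have e1 : (2 * (m : ℝ) + 1) ≠ 0 := by positivity
  have e2 : (2 * (l : ℝ) + 1) ≠ 0 := by positivity
  have e3 : ((r : ℝ) + 1) ≠ 0 := by positivity
  have e4 : ((K : ℝ) + 1) ≠ 0 := by positivity
  have e5 : ((K1 : ℝ) + 1) ≠ 0 := by positivity
  push_cast
  field_simp

theorem den_n2 (hl : 1 ≤ l) (a b : ZMod (2 * m + 1)) (x : ZMod (2 * l + 1)) :
    den (bx {b} (univ \ {-x, 1 - x}) univ {a} {0} univ : Finset (Lbl l m r K K1)) =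
      (1 - 2 / (2 * (l : ℝ) + 1)) / (2 * m + 1) / ((2 * m + 1) * (K + 1)) := by
  rw [den_bx, card_univ_fin, card_univ_fin, Finset.card_singleton, Finset.card_singleton,
    Finset.card_singleton, card_compl_pair (neg_ne hl x)]
  have e1 : (2 * (m : ℝ) + 1) ≠ 0 := by positivity
  have e2 : (2 * (l : ℝ) + 1) ≠ 0 := by positivity
  have e3 : ((r : ℝ) + 1) ≠ 0 := by positivity
  have e4 : ((K : ℝ) + 1) ≠ 0 := by positivity
  have e5 : ((K1 : ℝ) + 1) ≠ 0 := by positivity
  push_cast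
  field_simp

theorem card_sdiff_UH {G : SimpleGraph V} {UH : Finset V} {v : V} {A : Finset V}
    (hA : A ⊆ nb G v) (h2 : (nb G v ∩ UH).card ≤ 2) :
    (A.card : ℝ) - 2 ≤ ((A \ UH).card : ℝ) ∧ ((A \ UH).card : ℝ) ≤ A.card := by
  constructor
  · have h3 : A.card ≤ (A \ UH).card + (A ∩ UH).card := by
      rw [Finset.card_sdiff_add_card_inter]
    have h4 : (A ∩ UH).card ≤ (nb G v ∩ UH).card :=
      card_le_card (inter_subset_inter_right hA)
    have h5 : A.card ≤ (A \ UH).card + 2 := by omega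
    have h6 : (A.card : ℝ) ≤ ((A \ UH).card : ℝ) + 2 := by exact_mod_cast h5
    linarith
  · exact_mod_cast card_le_card sdiff_subset

/-- the cells are large -/
theorem card_As {G : SimpleGraph V} {UH : Finset V} {lab : V → Lbl l m r K K1} {d : ℕ}
    {y : ℝ} (hd : ∀ v, (nb G v).card ≤ d) (hV : 2 * (d : ℝ) ≤ Fintype.card V) (hd0 : 0 < d)
    (b : ZMod (2 * m + 1)) (hy : 0 ≤ y)
    (hlo : ∀ v, y ≤ ((nb G v ∩ As UH lab b).card : ℝ)) :
    2 * y ≤ ((As UH lab b).card : ℝ) := by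
  have hd0' : (0 : ℝ) < d := by exact_mod_cast hd0
  have h1 : ∑ v : V, ((nb G v ∩ As UH lab b).card : ℝ) =
      ∑ z ∈ As UH lab b, ((nb G z).card : ℝ) := by
    have h2 : ∀ v : V, ((nb G v ∩ As UH lab b).card : ℝ) =
        ∑ z ∈ As UH lab b, if G.Adj v z then (1 : ℝ) else 0 := by
      intro v
      rw [Finset.sum_ite, Finset.sum_const_zero, add_zero, Finset.sum_const, nsmul_eq_mul,
        mul_one]
      congr 2
      ext z
      rw [mem_inter, mem_nb, mem_filter]
      tauto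
    have h3 : ∀ z : V, ((nb G z).card : ℝ) = ∑ v : V, if G.Adj v z then (1 : ℝ) else 0 := by
      intro z
      rw [Finset.sum_ite, Finset.sum_const_zero, add_zero, Finset.sum_const, nsmul_eq_mul,
        mul_one]
      congr 2
      ext v
      rw [mem_nb, mem_filter, G.adj_comm]
      simp
    rw [Finset.sum_congr rfl (fun v _ => h2 v), Finset.sum_comm]
    exact Finset.sum_congr rfl (fun z _ => (h3 z).symm)
  have h4 : (Fintype.card V : ℝ) * y ≤ ∑ v : V, ((nb G v ∩ As UH lab b).card : ℝ) := by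
    have h5 : ∑ _v : V, y ≤ ∑ v : V, ((nb G v ∩ As UH lab b).card : ℝ) :=
      Finset.sum_le_sum (fun v _ => hlo v)
    rw [Finset.sum_const, nsmul_eq_mul, card_univ] at h5
    exact h5
  have h6 : ∑ z ∈ As UH lab b, ((nb G z).card : ℝ) ≤ ((As UH lab b).card : ℝ) * d := by
    have h7 : ∑ z ∈ As UH lab b, ((nb G z).card : ℝ) ≤ ∑ _z ∈ As UH lab b, (d : ℝ) :=
      Finset.sum_le_sum (fun z _ => by exact_mod_cast hd z)
    rw [Finset.sum_const, nsmul_eq_mul] at h7
    exact h7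
  have h8 : 2 * (d : ℝ) * y ≤ (Fintype.card V : ℝ) * y := mul_le_mul_of_nonneg_right hV hy
  have h9 : (2 * y) * d ≤ ((As UH lab b).card : ℝ) * d := by
    calc (2 * y) * d = 2 * (d : ℝ) * y := by ring
      _ ≤ _ := h8
      _ ≤ _ := h4
      _ = _ := h1
      _ ≤ _ := h6
  exact le_of_mul_le_mul_right h9 hd0'

end

theorem stmt_NDEC (hFAC : Stmt_FAC.{u}) : Stmt_NDEC.{u} := by
  intro g l m r K K1 hg hl hm
  have hm0 : (0 : ℝ) < 2 * (m : ℝ) + 1 := by positivity
  have hl0 : (0 : ℝ) < 2 * (l : ℝ) + 1 := by positivity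
  have hK0 : (0 : ℝ) < (K : ℝ) + 1 := by positivity
  have hK1 : (1 : ℝ) ≤ (K : ℝ) + 1 := by
    have : (0 : ℝ) ≤ K := Nat.cast_nonneg _
    linarith
  set N : ℝ := 2 * (m : ℝ) + 1 with hN
  have hN5 : 5 ≤ N := by
    have : (2 : ℝ) ≤ m := by exact_mod_cast hm
    rw [hN]
    linarith
  set t : ℝ := 1 - 2 / (2 * (l : ℝ) + 1) with ht
  have ht3 : 1 / 3 ≤ t := by
    have h1 : (1 : ℝ) ≤ l := by exact_mod_cast hl
    have h2 : 2 / (2 * (l : ℝ) + 1) ≤ 2 / 3 := by
      rw [div_le_div_iff₀ hl0 (by norm_num)]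
      linarith
    rw [ht]
    linarith
  have ht1 : t ≤ 1 := by
    have h2 : 0 ≤ 2 / (2 * (l : ℝ) + 1) := by positivity
    rw [ht]
    linarith
  have ht0 : 0 < t := by linarith
  set δ : ℝ := 1 / (40 * N ^ 2 * (K + 1)) with hδ
  have hδ0 : 0 < δ := by positivity
  set σ : ℝ := δ * t / (8 * N) with hσ
  have hσ0 : 0 < σ := by positivity
  refine ⟨σ, δ / 4, ⌈2 / σ⌉₊ + 1, hσ0, by positivity, ?_⟩
  intro V _ G d w c1 UH lab hd hB hL h2 hw
  by_cases hVe : IsEmpty V
  · refine ⟨fun _ => ⊥, fun x v => (hVe.false v).elim, fun x v => (hVe.false v).elim,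
      fun x v => (hVe.false v).elim, fun x x' _ v => (hVe.false v).elim,
      fun x v => (hVe.false v).elim⟩
  have hVn : Nonempty V := not_isEmpty_iff.1 hVe
  have hd1 : 0 < d := by omega
  have hd1' : (0 : ℝ) < d := by exact_mod_cast hd1
  have h2σ : 2 ≤ σ * d := by
    have h3 : 2 / σ ≤ (d : ℝ) := (Nat.le_ceil _).trans (by
      have : ⌈2 / σ⌉₊ ≤ d := by omega
      exact_mod_cast this)
    rw [div_le_iff₀ hσ0] at h3
    linarith
  have hVc : 2 * (d : ℝ) ≤ Fintype.card V := by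
    by_contra hlt
    push Not at hlt
    have h3 := hB.nsc univ (by
      rw [card_univ]
      have h4 : 0 < g * d := by positivity
      linarith)
    have h4 : ∑ v ∈ (univ : Finset V), ((nb G v \ univ).card : ℝ) = 0 := by
      apply Finset.sum_eq_zero
      intro v _
      rw [sdiff_eq_empty_iff_subset.2 (subset_univ _), card_empty, Nat.cast_zero]
    rw [h4, card_univ] at h3
    have h5 : (0 : ℝ) < Fintype.card V := by exact_mod_cast Fintype.card_pos
    have h6 : 0 < g * d * Fintype.card V := by positivity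
    linarith
  set q : ℝ := t * d / N with hq
  have hq0 : 0 < q := by positivity
  have hσq : σ * d = δ * q / 8 := by
    rw [hσ, hq]
    field_simp
  have hδ1 : δ ≤ 1 / 1000 := by
    rw [hδ]
    apply one_div_le_one_div_of_le (by norm_num)
    have e1 : 5 * 5 ≤ N * N := mul_le_mul hN5 hN5 (by norm_num) (by linarith)
    have e2 : 40 * N ^ 2 * 1 ≤ 40 * N ^ 2 * ((K : ℝ) + 1) :=
      mul_le_mul_of_nonneg_left hK1 (by positivity)
    rw [pow_two] at e2 ⊢
    linarith
  have hD : (((m - 1) * w : ℕ) : ℝ) ≤ (1 - 1 / N) * q := by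
    have h3 : ((m - 1 : ℕ) : ℝ) = (m : ℝ) - 1 := by
      rw [Nat.cast_sub (by omega)]
      simp
    rw [Nat.cast_mul, h3]
    calc ((m : ℝ) - 1) * w ≤ (1 - 1 / N) * (t * d / N) := hw
      _ = (1 - 1 / N) * q := by rw [hq]
  -- degrees
  have hdeg : ∀ v b, |((nb (Gn G lab) v ∩ As UH lab b).card : ℝ) - q| ≤ δ * q := by
    intro v b
    rw [nb_Gn]
    obtain ⟨h3, h4⟩ := card_sdiff_UH (A := nb G v ∩ cl lab (bx {b}
      (univ \ {-(lab v).2.1, 1 - (lab v).2.1}) univ univ univ univ)) inter_subset_left (h2 v)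
    have h5 := deg_bx_le hL hB.deg v (bx {b} (univ \ {-(lab v).2.1, 1 - (lab v).2.1}) univ univ
      univ univ)
    have h6 := le_deg_bx hL hB.low v (bx {b} (univ \ {-(lab v).2.1, 1 - (lab v).2.1}) univ univ
      univ univ)
    rw [den_n1 hl] at h5 h6
    have h7 : (1 - 2 / (2 * (l : ℝ) + 1)) / (2 * m + 1) * d = q := by
      rw [hq, ht, hN]
      ring
    have h8 : (1 - 2 / (2 * (l : ℝ) + 1)) / (2 * m + 1) * ((1 - δ / 4) * d) =
        q - δ / 4 * q := by
      rw [← h7]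
      ring
    rw [h7] at h5
    rw [h8] at h6
    rw [abs_le]
    have h9 : 0 < δ * q := by positivity
    constructor <;> linarith
  have hop : ∀ v a b, 1 / (2 * N * (K + 1)) * q ≤ ((nb (Gn G lab) v ∩ As UH lab b ∩
      univ.filter (fun v => (lab v).2.2.2.1 = a ∧ (lab v).2.2.2.2.1 = 0)).card : ℝ) := by
    intro v a b
    have h3 := (Nat.cast_le (α := ℝ)).2 (card_le_card (nb_Gn2 (G := G) (UH := UH) (lab := lab)
      v a b))
    obtain ⟨h4, -⟩ := card_sdiff_UH (A := nb G v ∩ cl lab (bx {b}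
      (univ \ {-(lab v).2.1, 1 - (lab v).2.1}) univ {a} {0} univ)) inter_subset_left (h2 v)
    have h6 := le_deg_bx hL hB.low v (bx {b} (univ \ {-(lab v).2.1, 1 - (lab v).2.1}) univ {a} {0}
      univ)
    rw [den_n2 hl] at h6
    have h8 : (1 - 2 / (2 * (l : ℝ) + 1)) / (2 * m + 1) / ((2 * m + 1) * (K + 1)) *
        ((1 - δ / 4) * d) = (1 - δ / 4) * (q / (N * (K + 1))) := by
      rw [hq, ht, hN]
      ring
    rw [h8] at h6
    have h9 : δ * q ≤ 1 / 40 * (q / (N * (K + 1))) := by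
      have h10 : δ * q = 1 / 40 * (q / (N * (K + 1))) * (1 / N) := by
        rw [hδ]
        field_simp
      rw [h10]
      have h11 : 1 / N ≤ 1 := by
        rw [div_le_one hm0]
        linarith
      have h12 : 0 ≤ 1 / 40 * (q / (N * (K + 1))) := by positivity
      exact mul_le_of_le_one_right h12 h11
    have h10 : 1 / (2 * N * (K + 1)) * q = 1 / 2 * (q / (N * (K + 1))) := by
      field_simp
    have h11 : 0 ≤ q / (N * (K + 1)) := by positivity
    have h12 : δ / 4 * (q / (N * (K + 1))) ≤ 1 / 4000 * (q / (N * (K + 1))) :=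
      mul_le_mul_of_nonneg_right (by linarith) h11
    rw [h10]
    have h13 : (1 - δ / 4) * (q / (N * (K + 1))) =
        q / (N * (K + 1)) - δ / 4 * (q / (N * (K + 1))) := by ring
    rw [h13] at h6
    linarith
  have hcard : ∀ b, 2 * ((m - 1) * w) ≤ (As UH lab b).card := by
    intro b
    have h3 : 2 * ((1 - 1 / N) * (d / N)) ≤ ((As UH lab b).card : ℝ) := by
      apply card_As hB.deg hVc hd1 b
      · apply mul_nonneg
        · have h11 : 1 / N ≤ 1 := by
            rw [div_le_one hm0]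
            linarith
          linarith
        · positivity
      · intro v
        have h4 : nb G v ∩ As UH lab b = (nb G v ∩ cl lab (bx {b} univ univ univ univ univ)) \
            UH := by
          ext z
          rw [mem_inter, mem_As, mem_sdiff, mem_inter, mem_cl, mem_bx, mem_singleton]
          simp [and_assoc]
        rw [h4]
        obtain ⟨h5, -⟩ := card_sdiff_UH (A := nb G v ∩ cl lab (bx {b} univ univ univ univ univ))
          inter_subset_left (h2 v)
        have h6 := le_deg_bx hL hB.low v (bx {b} univ univ univ univ univ)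
        rw [den_cell] at h6
        have h7 : 1 / (2 * (m : ℝ) + 1) * ((1 - δ / 4) * d) = (1 - δ / 4) * (d / N) := by
          rw [hN]
          ring
        rw [h7] at h6
        have h8 : σ * d ≤ δ / 8 * (d / N) := by
          rw [hσq, hq]
          have h9 : t * d / N ≤ d / N := by
            apply div_le_div_of_nonneg_right _ hm0.le
            exact mul_le_of_le_one_left hd1'.le ht1
          calc δ * (t * d / N) / 8 = δ / 8 * (t * d / N) := by ring
            _ ≤ δ / 8 * (d / N) := mul_le_mul_of_nonneg_left h9 (by positivity)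
        have h9 : δ ≤ 1 / N := by
          rw [hδ]
          apply one_div_le_one_div_of_le hm0
          have e1 : N ≤ N * N := le_mul_of_one_le_right hm0.le (by linarith)
          have e2 : 40 * N ^ 2 * 1 ≤ 40 * N ^ 2 * ((K : ℝ) + 1) :=
            mul_le_mul_of_nonneg_left hK1 (by positivity)
          rw [pow_two] at e2 ⊢
          linarith
        have h10 : 0 ≤ (d : ℝ) / N := by positivity
        have h11 : δ * (d / N) ≤ 1 / N * (d / N) := mul_le_mul_of_nonneg_right h9 h10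
        have h12 : 0 ≤ δ * (d / N) := by positivity
        have h13 : (1 - 1 / N) * (d / N) = d / N - 1 / N * (d / N) := by ring
        have h14 : (1 - δ / 4) * (d / N) = d / N - δ * (d / N) / 4 := by ring
        rw [h13]
        rw [h14] at h6
        linarith
    have h4 : 2 * (((m - 1) * w : ℕ) : ℝ) ≤ ((As UH lab b).card : ℝ) := by
      have h5 : q ≤ d / N := by
        rw [hq]
        apply div_le_div_of_nonneg_right _ hm0.le
        exact mul_le_of_le_one_left hd1'.le ht1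
      have h6 : 0 ≤ 1 - 1 / N := by
        have h11 : 1 / N ≤ 1 := by
          rw [div_le_one hm0]
          linarith
        linarith
      have h7 : (1 - 1 / N) * q ≤ (1 - 1 / N) * (d / N) := mul_le_mul_of_nonneg_left h5 h6
      linarith
    exact_mod_cast h4
  have hex : ∀ (a : ZMod (2 * m + 1)) (y : Fin m), ∃ M : Fin ((m - 1) * w) → SimpleGraph V,
      (∀ i, M i ≤ Gn G lab ∧ IsMat (M i)) ∧
      (∀ i v v', (M i).Adj v v' →
        (v ∈ As UH lab (a + ((y : ℕ) + 1 : ℕ)) ∧ v' ∈ As UH lab (a - ((y : ℕ) + 1 : ℕ))) ∨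
        (v ∈ As UH lab (a - ((y : ℕ) + 1 : ℕ)) ∧ v' ∈ As UH lab (a + ((y : ℕ) + 1 : ℕ)))) ∧
      (∀ i j, i ≠ j → ∀ v v', (M i).Adj v v' → ¬ (M j).Adj v v') ∧
      ∀ i, ∀ v ∈ As UH lab (a + ((y : ℕ) + 1 : ℕ)) ∪ As UH lab (a - ((y : ℕ) + 1 : ℕ)),
        v ∉ univ.filter (fun v => (lab v).2.2.2.1 = a ∧ (lab v).2.2.2.2.1 = 0) →
        (nb (M i) v).Nonempty := by
    intro a y
    refine hFAC (Gn G lab) q (1 / N) (1 / (2 * N * (K + 1))) δ ((m - 1) * w)
      (As UH lab (a + ((y : ℕ) + 1 : ℕ))) (As UH lab (a - ((y : ℕ) + 1 : ℕ)))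
      (univ.filter (fun v => (lab v).2.2.2.1 = a ∧ (lab v).2.2.2.2.1 = 0)) hq0 (by positivity)
      ?_ (by positivity) ?_ hδ0.le ?_ hD ?_ (hcard _) (hcard _) (fun v _ => hdeg v _)
      (fun v _ => hdeg v _) (fun v _ => hop v _ _) (fun v _ => hop v _ _)
    · rw [div_le_one hm0]
      linarith
    · rw [div_le_one (by positivity)]
      have e2 : 2 * N * 1 ≤ 2 * N * ((K : ℝ) + 1) :=
        mul_le_mul_of_nonneg_left hK1 (by positivity)
      linarith
    · rw [hδ]
      have h3 : 20 * (1 / (40 * N ^ 2 * ((K : ℝ) + 1))) = 1 / N * (1 / (2 * N * (K + 1))) := by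
        field_simp
        norm_num
      exact h3.le
    · rw [Finset.disjoint_left]
      intro v hv hv'
      have h3 := (mem_As.1 hv).1
      have h4 := (mem_As.1 hv').1
      rw [h3] at h4
      have h5 := c3f_inj a y
      have h6 : c3f a y 1 = c3f a y 2 := h4
      exact absurd (h5 h6) (by decide)
  choose MM h3 using hex
  exact combine MM (fun a y i => (h3 a y).1 i) (fun a y i v v' h => (h3 a y).2.1 i v v' h)
    (fun a y i j hij v v' h => (h3 a y).2.2.1 i j hij v v' h)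
    (fun a y i v hv hv' => (h3 a y).2.2.2 i v hv hv')

end Pool.Agent.Work.MP_db9399_bg.helper54
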